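import Pool.Agent.MP_670f9a_nt.H13.Spec

/-!
An integer polynomial that is small in the mean on the unit circle vanishes.
-/

namespace Pool.Agent.MP_670f9a_nt.H19

open Polynomial Pool.Agent.MP_670f9a_nt.H13 Metric

lemma norm_lt_one {R : ℝ} (hR : 0 < R) {a y : ℂ} (ha : ‖a‖ < R) (hy : ‖y‖ ≤ 1) :
    ‖(starRingEnd ℂ) a * y / R‖ < 1 := by
  rw [norm_div, norm_mul, Complex.norm_conj, Complex.norm_real, Real.norm_of_nonneg hR.le,
    div_lt_one hR]
  exact (mul_le_of_le_one_right (norm_nonneg a) hy).trans_lt ha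

lemma slit {R : ℝ} (hR : 0 < R) {a y : ℂ} (ha : ‖a‖ < R) (hy : ‖y‖ ≤ 1) :
    1 - (starRingEnd ℂ) a * y / R ∈ Complex.slitPlane := by
  rw [sub_eq_add_neg]
  exact Complex.mem_slitPlane_of_norm_lt_one (by rw [norm_neg]; exact norm_lt_one hR ha hy)

lemma re_log {R : ℝ} (hR : 0 < R) {a y : ℂ} (ha : ‖a‖ < R) (hy : ‖y‖ = 1) :
    (Complex.log (1 - (starRingEnd ℂ) a * y / R)).re = Real.log ‖(R : ℂ) * y - a‖ - Real.log R := by
  have R0 : (R : ℂ) ≠ 0 := Complex.ofReal_ne_zero.2 hR.ne'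
  have c : (starRingEnd ℂ) y * y = 1 := by
    rw [Complex.conj_mul', hy]
    simp
  have e : (starRingEnd ℂ) ((R : ℂ) * y - a) * y = R * (1 - (starRingEnd ℂ) a * y / R) := by
    rw [map_sub, map_mul, Complex.conj_ofReal, sub_mul, mul_assoc, c]
    field_simp
  have n := congrArg norm e
  rw [norm_mul, norm_mul, Complex.norm_conj, hy, mul_one, Complex.norm_real,
    Real.norm_of_nonneg hR.le] at n
  have p : ‖1 - (starRingEnd ℂ) a * y / R‖ ≠ 0 :=
    norm_ne_zero_iff.2 (Complex.slitPlane_ne_zero (slit hR ha hy.le))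
  rw [Complex.log_re, n, Real.log_mul hR.ne' p]
  ring

theorem svanish : SVanish := by
  intro Δ I R c₀ γ₁ γ₂ hR hI h hc
  by_contra h0
  obtain ⟨q, hq, nd⟩ := exists_eq_pow_rootMultiplicity_mul_and_not_dvd Δ h0 0
  rw [C_0, sub_zero] at hq nd
  rw [X_dvd_iff] at nd
  set F : ℂ → ℂ := fun x => (q.map (Int.castRingHom ℂ)).eval x * Complex.exp
    (-(γ₁ * ∑ a ∈ I, Complex.log (1 - (starRingEnd ℂ) a * x / R) +
      γ₂ * ∑ a ∈ I, Complex.log (1 - (starRingEnd ℂ) a * x ^ 2 / R))) with hF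
  have d : DifferentiableOn ℂ F (closure (ball (0 : ℂ) 1)) := by
    rw [closure_ball (0 : ℂ) one_ne_zero]
    intro x hx
    have x1 : ‖x‖ ≤ 1 := mem_closedBall_zero_iff.1 hx
    have x2 : ‖x ^ 2‖ ≤ 1 := by
      rw [norm_pow]
      exact pow_le_one₀ (norm_nonneg x) x1
    refine DifferentiableAt.differentiableWithinAt ?_
    refine (Polynomial.differentiableAt _).mul (DifferentiableAt.cexp (DifferentiableAt.neg ?_))
    refine DifferentiableAt.add (DifferentiableAt.const_mul ?_ _) (DifferentiableAt.const_mul ?_ _)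
    · exact DifferentiableAt.fun_sum fun a ha =>
        DifferentiableAt.clog (by fun_prop) (slit hR (hI a ha) x1)
    · exact DifferentiableAt.fun_sum fun a ha =>
        DifferentiableAt.clog (by fun_prop) (slit hR (hI a ha) x2)
  have b : ∀ x ∈ frontier (ball (0 : ℂ) 1),
      ‖F x‖ ≤ Real.exp (c₀ + (γ₁ + γ₂) * (I.card * Real.log R)) := by
    intro x hx
    rw [frontier_ball (0 : ℂ) one_ne_zero] at hx
    have x1 : ‖x‖ = 1 := mem_sphere_zero_iff_norm.1 hx
    have x2 : ‖x ^ 2‖ = 1 := by rw [norm_pow, x1, one_pow]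
    have e : ‖ev x Δ‖ = ‖(q.map (Int.castRingHom ℂ)).eval x‖ := by
      rw [hq, map_mul, map_pow, norm_mul, norm_pow, eval_map]
      simp [ev, x1]
    have r1 : (∑ a ∈ I, Complex.log (1 - (starRingEnd ℂ) a * x / R)).re =
        ∑ a ∈ I, Real.log ‖(R : ℂ) * x - a‖ - I.card * Real.log R := by
      rw [Complex.re_sum, Finset.sum_congr rfl fun a ha => re_log hR (hI a ha) x1,
        Finset.sum_sub_distrib, Finset.sum_const, nsmul_eq_mul]
    have r2 : (∑ a ∈ I, Complex.log (1 - (starRingEnd ℂ) a * x ^ 2 / R)).re =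
        ∑ a ∈ I, Real.log ‖(R : ℂ) * x ^ 2 - a‖ - I.card * Real.log R := by
      rw [Complex.re_sum, Finset.sum_congr rfl fun a ha => re_log hR (hI a ha) x2,
        Finset.sum_sub_distrib, Finset.sum_const, nsmul_eq_mul]
    have k := h x x1
    rw [e] at k
    simp only [hF]
    rw [norm_mul, Complex.norm_exp, Complex.neg_re, Complex.add_re, Complex.re_ofReal_mul,
      Complex.re_ofReal_mul, r1, r2]
    refine (mul_le_mul_of_nonneg_right k (Real.exp_pos _).le).trans (le_of_eq ?_)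
    rw [← Real.exp_add]
    congr 1
    ring
  have m := Complex.norm_le_of_forall_mem_frontier_norm_le isBounded_ball d.diffContOnCl b
    (subset_closure (mem_ball_self one_pos))
  have f0 : F 0 = (q.coeff 0 : ℂ) := by
    simp [hF, ← coeff_zero_eq_eval_zero]
  rw [f0, Complex.norm_intCast] at m
  have o : (1 : ℝ) ≤ |(q.coeff 0 : ℝ)| := by exact_mod_cast Int.one_le_abs nd
  have l := Real.exp_lt_one_iff.2 hc
  linarith

end Pool.Agent.MP_670f9a_nt.H19
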