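import Pool.Agent.MP_670f9a_nt.H13.Spec2

/-!
Sums of the Cauchy kernel over roots of unity, and the two-scale kernel.
-/

namespace Pool.Agent.MP_670f9a_nt.H19Kern

open Real Finset Pool.Agent.MP_670f9a_nt.NP
open scoped ComplexConjugate

theorem one_sub_ne {a : ℂ} (ha : ‖a‖ < 1) : 1 - a ≠ 0 := by
  intro h
  have : a = 1 := by linear_combination -h
  rw [this] at ha
  simp at ha

theorem le_norm_one_sub (a : ℂ) : 1 - ‖a‖ ≤ ‖1 - a‖ := by
  have := norm_sub_norm_le (1 : ℂ) a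
  simpa using this

theorem re_nonneg (a : ℂ) (ha : ‖a‖ < 1) : 0 ≤ (1 / (1 - a)).re := by
  rw [one_div, Complex.inv_re]
  refine div_nonneg ?_ (Complex.normSq_nonneg _)
  have := Complex.re_le_norm a
  simp only [Complex.sub_re, Complex.one_re]
  linarith

theorem norm_of_pow {J : ℕ} (hJ : 1 ≤ J) {z : ℂ} (hz : z ^ J = 1) : ‖z‖ = 1 := by
  have h : ‖z‖ ^ J = 1 := by rw [← norm_pow, hz, norm_one]
  exact (pow_eq_one_iff_of_nonneg (norm_nonneg z) (by omega)).1 h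

theorem cauchy_sum (J : ℕ) (S : Finset ℂ) (a : ℂ) (hJ : 1 ≤ J) (hS : ∀ z ∈ S, z ^ J = 1)
    (ha : ‖a‖ < 1) : ∑ z ∈ S, (1 / (1 - a * conj z)).re ≤ J / (1 - ‖a‖ ^ J) := by
  classical
  have : NeZero J := ⟨by omega⟩
  obtain ⟨ζ, hζ⟩ : ∃ ζ : ℂ, IsPrimitiveRoot ζ J :=
    ⟨_, Complex.isPrimitiveRoot_exp J (by omega)⟩
  have hlt : ∀ z : ℂ, z ^ J = 1 → ‖a * conj z‖ < 1 := by
    intro z hz
    rw [norm_mul, Complex.norm_conj, norm_of_pow hJ hz, mul_one]
    exact ha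
  have hpow : ∀ k : ℕ, (ζ ^ k) ^ J = 1 := by
    intro k
    rw [← pow_mul, mul_comm, pow_mul, hζ.pow_eq_one, one_pow]
  have hsub : S ⊆ (range J).image fun k => ζ ^ k := by
    intro z hz
    obtain ⟨i, hi, rfl⟩ := hζ.eq_pow_of_pow_eq_one (hS z hz)
    exact mem_image.2 ⟨i, mem_range.2 hi, rfl⟩
  have h1 : ∑ z ∈ S, (1 / (1 - a * conj z)).re ≤
      ∑ z ∈ (range J).image (fun k => ζ ^ k), (1 / (1 - a * conj z)).re := by
    refine sum_le_sum_of_subset_of_nonneg hsub fun z hz _ => ?_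
    obtain ⟨k, _, rfl⟩ := mem_image.1 hz
    exact re_nonneg _ (hlt _ (hpow k))
  rw [sum_image fun i hi j hj h =>
    hζ.pow_inj (mem_range.1 (mem_coe.1 hi)) (mem_range.1 (mem_coe.1 hj)) h] at h1
  have haJ : ‖a ^ J‖ < 1 := by
    rw [norm_pow]
    exact pow_lt_one₀ (norm_nonneg a) ha (by omega)
  have hne := one_sub_ne haJ
  have hterm : ∀ k ∈ range J, 1 / (1 - a * conj (ζ ^ k)) =
      (∑ i ∈ range J, a ^ i * (conj ζ ^ i) ^ k) / (1 - a ^ J) := by
    intro k _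
    have hx := one_sub_ne (hlt _ (hpow k))
    have hg := mul_neg_geom_sum (a * conj (ζ ^ k)) J
    have hJ' : (a * conj (ζ ^ k)) ^ J = a ^ J := by
      rw [mul_pow, ← map_pow, hpow k, map_one, mul_one]
    have hs : ∑ i ∈ range J, (a * conj (ζ ^ k)) ^ i = ∑ i ∈ range J, a ^ i * (conj ζ ^ i) ^ k := by
      refine sum_congr rfl fun i _ => ?_
      rw [mul_pow, map_pow, ← pow_mul, ← pow_mul, mul_comm k i]
    rw [hJ', hs] at hg
    rw [div_eq_div_iff hx hne, one_mul, ← hg, mul_comm]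
  have hinner : ∀ i ∈ range J, ∑ k ∈ range J, a ^ i * (conj ζ ^ i) ^ k =
      if i = 0 then (J : ℂ) else 0 := by
    intro i hi
    split_ifs with h0
    · subst h0
      simp
    · rw [← mul_sum]
      have hw : conj ζ ^ i ≠ 1 := by
        intro h
        have h' : ζ ^ i = 1 := by
          have := congrArg conj h
          simpa using this
        exact hζ.pow_ne_one_of_pos_of_lt h0 (mem_range.1 hi) h'
      have hwJ : (conj ζ ^ i) ^ J = 1 := by
        rw [← map_pow, ← map_pow, hpow i, map_one]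
      rw [geom_sum_eq hw, hwJ]
      simp
  have htot : ∑ k ∈ range J, 1 / (1 - a * conj (ζ ^ k)) = J / (1 - a ^ J) := by
    rw [sum_congr rfl hterm, ← sum_div, sum_comm, sum_congr rfl hinner]
    congr 1
    rw [sum_ite_eq']
    simp
    omega
  rw [← Complex.re_sum (range J), htot] at h1
  refine h1.trans ((Complex.re_le_norm _).trans ?_)
  rw [norm_div, Complex.norm_natCast]
  have h2 := le_norm_one_sub (a ^ J)
  rw [norm_pow] at h2 haJ
  exact div_le_div_of_nonneg_left (Nat.cast_nonneg J) (by linarith) h2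

theorem near_root (J : ℕ) (b : ℂ) (hJ : 1 ≤ J) :
    ∃ z : ℂ, z ^ J = 1 ∧ ‖b - ‖b‖ * z‖ ≤ ‖b‖ * (π / J) := by
  have hJ0 : (0 : ℝ) < J := by exact_mod_cast hJ
  have hpi := Real.pi_pos
  set θ := Complex.arg b with hθ
  set k : ℤ := round (θ * J / (2 * π)) with hk
  set φ : ℝ := 2 * π * k / J with hφ
  refine ⟨Complex.exp (Complex.I * φ), ?_, ?_⟩
  · rw [← Complex.exp_nat_mul]
    have : (J : ℂ) * (Complex.I * φ) = k * (2 * π * Complex.I) := by
      have hJc : (J : ℂ) ≠ 0 := by exact_mod_cast hJ0.ne'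
      rw [hφ]
      push_cast
      field_simp
    rw [this, Complex.exp_int_mul_two_pi_mul_I]
  · have hb : b = ‖b‖ * Complex.exp (Complex.I * θ) := by
      rw [mul_comm Complex.I]
      exact (Complex.norm_mul_exp_arg_mul_I b).symm
    have hfac : b - ‖b‖ * Complex.exp (Complex.I * φ) =
        ‖b‖ * (Complex.exp (Complex.I * φ) * (Complex.exp (Complex.I * (θ - φ : ℝ)) - 1)) := by
      have he : Complex.exp (Complex.I * φ) * Complex.exp (Complex.I * (θ - φ : ℝ)) =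
          Complex.exp (Complex.I * θ) := by
        rw [← Complex.exp_add]
        congr 1
        push_cast
        ring
      rw [mul_sub, he, mul_sub, ← hb, mul_one]
    rw [hfac, norm_mul, norm_mul, Complex.norm_real, norm_norm]
    refine mul_le_mul_of_nonneg_left ?_ (norm_nonneg b)
    have h1 : ‖Complex.exp (Complex.I * φ)‖ = 1 := by
      rw [mul_comm]
      exact Complex.norm_exp_ofReal_mul_I φ
    rw [h1, one_mul]
    refine Real.norm_exp_I_mul_ofReal_sub_one_le.trans ?_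
    have h2 := abs_sub_round (θ * J / (2 * π))
    have h3 : θ - φ = (2 * π / J) * (θ * J / (2 * π) - k) := by
      rw [hφ]
      field_simp
    rw [Real.norm_eq_abs, h3, abs_mul, abs_of_pos (by positivity : 0 < 2 * π / J)]
    calc 2 * π / J * |θ * J / (2 * π) - k| ≤ 2 * π / J * (1 / 2) :=
          mul_le_mul_of_nonneg_left h2 (by positivity)
      _ = π / J := by ring

theorem norm_sq_one_sub (ρ : ℝ) (z : ℂ) :
    ‖1 - (ρ : ℂ) * z‖ ^ 2 = 1 - 2 * ρ * z.re + ρ ^ 2 * ‖z‖ ^ 2 := by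
  rw [Complex.sq_norm, Complex.sq_norm, Complex.normSq_apply, Complex.normSq_apply]
  simp
  ring

theorem two_scale (ρ₁ ρ₂ : ℝ) (z : ℂ) (h0 : 0 ≤ ρ₂) (h12 : ρ₂ ≤ ρ₁) (h1 : ρ₁ ≤ 1)
    (hz : ‖z‖ ≤ 1) : (1 + ρ₂) * ‖1 - (ρ₁ : ℂ) * z‖ ≤ (1 + ρ₁) * ‖1 - (ρ₂ : ℂ) * z‖ := by
  refine le_of_sq_le_sq (by
    rw [mul_pow, mul_pow, norm_sq_one_sub, norm_sq_one_sub]
    have hx : -1 ≤ z.re := by
      have := Complex.abs_re_le_norm z
      have := neg_abs_le z.re
      linarith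
    have hT : ‖z‖ ^ 2 ≤ 1 := pow_le_one₀ (norm_nonneg z) hz
    have hp : ρ₁ * ρ₂ ≤ 1 := mul_le_one₀ h1 h0 (by linarith)
    have hq : 0 ≤ ρ₁ * ρ₂ := mul_nonneg (by linarith) h0
    have hb : 0 ≤ 2 + ρ₁ + ρ₂ + 2 * z.re * (1 - ρ₁ * ρ₂) -
        ‖z‖ ^ 2 * (ρ₁ + ρ₂ + 2 * (ρ₁ * ρ₂)) := by
      have e1 : 0 ≤ (z.re + 1) * (1 - ρ₁ * ρ₂) := mul_nonneg (by linarith) (by linarith)
      have e2 : 0 ≤ (1 - ‖z‖ ^ 2) * (ρ₁ + ρ₂ + 2 * (ρ₁ * ρ₂)) :=
        mul_nonneg (by linarith) (by linarith)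
      nlinarith
    have := mul_nonneg (sub_nonneg.2 h12) hb
    nlinarith) (by have := norm_nonneg (1 - (ρ₂ : ℂ) * z); nlinarith)

theorem kernel (s : ℝ) (z : ℂ) (hs : 0 < s) (hs' : s ≤ 1 / 10) (hz : ‖z‖ ≤ 1) :
    -(3 * s) ≤ log ‖1 - (1 - 4 * s : ℝ) * z‖ - log ‖1 - (1 - s : ℝ) * z‖ ∧
    (‖1 - z‖ ≤ s → log 2 ≤ log ‖1 - (1 - 4 * s : ℝ) * z‖ - log ‖1 - (1 - s : ℝ) * z‖) := by
  have hlow : ∀ ρ : ℝ, 0 ≤ ρ → 1 - ρ ≤ ‖1 - (ρ : ℂ) * z‖ := by
    intro ρ hρ
    have h := le_norm_one_sub ((ρ : ℂ) * z)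
    rw [norm_mul, Complex.norm_real, Real.norm_eq_abs, abs_of_nonneg hρ] at h
    nlinarith
  have hA := hlow (1 - s) (by linarith)
  have hB := hlow (1 - 4 * s) (by linarith)
  set A := ‖1 - ((1 - s : ℝ) : ℂ) * z‖ with hAdef
  set B := ‖1 - ((1 - 4 * s : ℝ) : ℂ) * z‖ with hBdef
  have hA0 : 0 < A := by linarith
  have hB0 : 0 < B := by linarith
  constructor
  · have h := two_scale (1 - s) (1 - 4 * s) z (by linarith) (by linarith) (by linarith) hz
    rw [← hAdef, ← hBdef] at h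
    have h2 : A ≤ (1 + 3 * s) * B := by
      have hc : 0 < 1 + (1 - 4 * s) := by linarith
      refine le_of_mul_le_mul_left (h.trans ?_) hc
      rw [← mul_assoc]
      refine mul_le_mul_of_nonneg_right ?_ hB0.le
      nlinarith
    have h3 := Real.log_le_log hA0 h2
    rw [Real.log_mul (by linarith) hB0.ne'] at h3
    have h4 := Real.log_le_sub_one_of_pos (by linarith : 0 < 1 + 3 * s)
    linarith
  · intro h1
    have h2 : A ≤ 2 * s := by
      have e : 1 - ((1 - s : ℝ) : ℂ) * z = (1 - z) + (s : ℂ) * z := by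
        push_cast
        ring
      have := norm_add_le (1 - z) ((s : ℂ) * z)
      rw [← e, ← hAdef, norm_mul, Complex.norm_real, Real.norm_eq_abs, abs_of_pos hs] at this
      nlinarith
    have h3 : 2 * A ≤ B := by linarith
    have h4 := Real.log_le_log (by linarith) h3
    rw [Real.log_mul (by norm_num) hA0.ne'] at h4
    linarith

theorem sum_Icc_eq {M : Type*} [AddCommMonoid M] (f : ℕ → M) (N : ℕ) :
    ∑ r ∈ range (N + 1), f r = f 0 + ∑ r ∈ Icc 1 N, f r := by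
  induction N with
  | zero => simp
  | succ n ih => rw [sum_range_succ, ih, sum_Icc_succ_top (by omega), add_assoc]

theorem tails (ρ : ℝ) (z : ℂ) (N : ℕ) (h0 : 0 ≤ ρ) (h1 : ρ < 1) (hz : ‖z‖ ≤ 1) :
    |log ‖1 - ρ * z‖ + ∑ r ∈ Icc 1 N, ρ ^ r / r * (z ^ r).re| ≤ ρ ^ N / (1 - ρ) ∧
    |(1 / (1 - ρ * z)).re - 1 - ∑ r ∈ Icc 1 N, ρ ^ r * (z ^ r).re| ≤ ρ ^ N / (1 - ρ) := by
  set w : ℂ := ρ * z with hw
  have hwρ : ‖w‖ ≤ ρ := by
    rw [hw, norm_mul, Complex.norm_real, Real.norm_eq_abs, abs_of_nonneg h0]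
    nlinarith
  have hw1 : ‖w‖ < 1 := by linarith
  have hpow : ∀ r : ℕ, (w ^ r).re = ρ ^ r * (z ^ r).re := by
    intro r
    rw [hw, mul_pow, ← Complex.ofReal_pow, Complex.re_ofReal_mul]
  have hkey : ‖w‖ ^ (N + 1) / (1 - ‖w‖) ≤ ρ ^ N / (1 - ρ) := by
    refine div_le_div₀ (pow_nonneg h0 N) ?_ (by linarith) (by linarith)
    calc ‖w‖ ^ (N + 1) ≤ ρ ^ (N + 1) := pow_le_pow_left₀ (norm_nonneg w) hwρ _
      _ ≤ ρ ^ N := pow_le_pow_of_le_one h0 h1.le (by omega)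
  constructor
  · have h := Complex.norm_log_sub_logTaylor_le N (z := -w) (by rwa [norm_neg])
    have hre : (Complex.log (1 + -w) - Complex.logTaylor (N + 1) (-w)).re =
        log ‖1 - w‖ + ∑ r ∈ Icc 1 N, ρ ^ r / r * (z ^ r).re := by
      rw [Complex.sub_re, Complex.log_re, ← sub_eq_add_neg, Complex.logTaylor, sum_Icc_eq]
      simp only [Nat.cast_zero, div_zero, zero_add]
      rw [Complex.re_sum, sub_eq_add_neg, ← sum_neg_distrib]
      congr 1
      refine sum_congr rfl fun r _ => ?_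
      have e : (-1 : ℂ) ^ (r + 1) * (-w) ^ r / r = -(w ^ r) / (r : ℝ) := by
        rw [neg_pow w, pow_succ, Complex.ofReal_natCast]
        have : ((-1 : ℂ) ^ r) * (-1) ^ r = 1 := by
          rw [← mul_pow]
          simp
        linear_combination (-(w ^ r) / r) * this
      rw [e, Complex.div_ofReal_re, Complex.neg_re, hpow]
      ring
    rw [← hre]
    refine (Complex.abs_re_le_norm _).trans (h.trans (le_trans ?_ hkey))
    rw [norm_neg, ← div_eq_mul_inv]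
    refine div_le_self (div_nonneg (by positivity) (by linarith)) ?_
    have : (0 : ℝ) ≤ N := Nat.cast_nonneg N
    linarith
  · have hne := one_sub_ne hw1
    have hg := mul_neg_geom_sum w (N + 1)
    rw [sum_Icc_eq, pow_zero] at hg
    have e : 1 / (1 - w) - 1 - ∑ r ∈ Icc 1 N, w ^ r = w ^ (N + 1) / (1 - w) := by
      field_simp
      linear_combination -hg
    have hre : (1 / (1 - w) - 1 - ∑ r ∈ Icc 1 N, w ^ r).re =
        (1 / (1 - w)).re - 1 - ∑ r ∈ Icc 1 N, ρ ^ r * (z ^ r).re := by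
      rw [Complex.sub_re, Complex.sub_re, Complex.one_re, Complex.re_sum]
      congr 1
      exact sum_congr rfl fun r _ => hpow r
    rw [← hre, e]
    refine (Complex.abs_re_le_norm _).trans (le_trans ?_ hkey)
    rw [norm_div, norm_pow]
    exact div_le_div_of_nonneg_left (by positivity) (by linarith) (le_norm_one_sub w)

theorem sKern : SKern :=
  ⟨cauchy_sum, re_nonneg, near_root, kernel, tails⟩

end Pool.Agent.MP_670f9a_nt.H19Kern
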